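import Pool.Agent.R744.LieRed5

/-!
# Reducible Dupin hypersurfaces with three principal curvatures

The local Lie equivalence classes of the reducible proper Dupin hypersurfaces of `S^n`, `n = d + 1`,
with three distinct principal curvatures are the pairs `(m, σ)` of multiplicities `m_i ≥ 1` with
`m_0 + m_1 + m_2 = d` and curvatures `σ_0 + σ_1 + σ_2 = 0`, `σ ≠ 0`, up to simultaneous permutations
of the `m_i` and `σ_i` and multiplication of `σ` by positive numbers. The model of `(m, σ)` is the
family of lines through the differences of the points of the three space forms `M_i(σ_i)`.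
-/

set_option autoImplicit false

namespace Pool.Agent.Results.MP_eed254_gt.Classification

open Pool.Agent.R744.Lie

/-- The classification of the reducible proper Dupin hypersurfaces with three principal
curvatures:
1. such a hypersurface is reducible near a point exactly if it is modelled on admissible data;
2. all admissible data occur;
3. two modelled hypersurfaces are locally Lie equivalent exactly if their data agree up to a
permutation and up to multiplication of the curvatures by a positive number. -/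
theorem result :
    (∀ (d : ℕ) (U : Set (Vec d)) (f ξ : Vec d → Vec (d + 2)), IsSphereHypersurface U f ξ →
      IsProperDupin 3 U f ξ → ∀ u₀ ∈ U,
      (IsReducibleAt f ξ u₀ ↔ ∃ m σ, IsData d m σ ∧ IsModelledAt m σ f ξ u₀)) ∧
    (∀ (d : ℕ) (m : Fin 3 → ℕ) (σ : Fin 3 → ℝ), IsData d m σ →
      ∃ (U : Set (Vec d)) (f ξ : Vec d → Vec (d + 2)) (u₀ : Vec d), u₀ ∈ U ∧
        IsSphereHypersurface U f ξ ∧ IsProperDupin 3 U f ξ ∧ IsReducibleAt f ξ u₀ ∧
        IsModelledAt m σ f ξ u₀) ∧
    (∀ (d : ℕ) (m m' : Fin 3 → ℕ) (σ σ' : Fin 3 → ℝ) (f ξ f' ξ' : Vec d → Vec (d + 2))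
      (u₀ u₀' : Vec d), IsData d m σ → IsData d m' σ' → IsModelledAt m σ f ξ u₀ →
      IsModelledAt m' σ' f' ξ' u₀' →
      (IsLieEquivalentAt f ξ u₀ f' ξ' u₀' ↔ ∃ (π : Equiv.Perm (Fin 3)) (c : ℝ), 0 < c ∧
        (∀ i, m' i = m (π i)) ∧ ∀ i, σ' i = c * σ (π i))) := by
  refine ⟨?_, ?_, ?_⟩
  · intro d U f ξ hf hD u₀ hu
    constructor
    · exact isModelled_of_isReducibleAt hf hD hu
    · rintro ⟨m, σ, h, hM⟩
      exact hM.isReducibleAt h
  · intro d m σ h
    obtain ⟨U, f, ξ, u₀, hu, h1, h2, h3⟩ := exists_realization h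
    exact ⟨U, f, ξ, u₀, hu, h1, h2, h3.isReducibleAt h, h3⟩
  · intro d m m' σ σ' f ξ f' ξ' u₀ u₀' h h' hM hM'
    exact lieEquivalentAt_iff h h' hM hM'

end Pool.Agent.Results.MP_eed254_gt.Classification
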